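import Mathlib
import Pool.Agent.Helper86.Opp.Near

/-!
# Oppenheim's conjecture on products of linear forms: a threshold for isolation

Systems of `n` linear forms in `n` variables are written as `L : Fin n → Fin n → ℝ`; the form `L i` has the
coefficients `L i j`.
-/

set_option autoImplicit false

namespace Pool.Agent.Results.MP_77d073_nt.IsolationThreshold

variable {n : ℕ}

/-- The product of the linear forms with the coefficients `L i`, at a real point. -/
noncomputable def F (L : Fin n → Fin n → ℝ) (x : Fin n → ℝ) : ℝ :=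
  ∏ i : Fin n, ∑ j : Fin n, L i j * x j

/-- The absolute value of the product is at least `ν` at the nonzero integer points. -/
def AtLeast (L : Fin n → Fin n → ℝ) (ν : ℝ) : Prop :=
  ∀ p : Fin n → ℤ, p ≠ 0 → ν ≤ |F L (fun j => (p j : ℝ))|

/-- Oppenheim's conclusion: there is an irreducible RS-matrix whose invariant planes are the
hyperplanes `L i = 0`. -/
def HasMatrix (L : Fin n → Fin n → ℝ) : Prop :=
  ∃ A : Matrix (Fin n) (Fin n) ℤ,
    A.det = 1 ∧
    Irreducible (A.charpoly.map (Int.castRingHom ℚ)) ∧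
    (∀ z : ℂ, Polynomial.aeval z A.charpoly = 0 → z.im = 0) ∧
    ∀ i : Fin n, ∀ x : Fin n → ℝ, ∑ j, L i j * x j = 0 →
      ∑ j, L i j * ((A.map (Int.cast : ℤ → ℝ)).mulVec x) j = 0

/-- A counterexample to Oppenheim's conjecture if `ν > 0`: independent forms whose product is at least `ν` in
absolute value at the nonzero integer points and which have no matrix. -/
def Counterexample (L : Fin n → Fin n → ℝ) (ν : ℝ) : Prop :=
  LinearIndependent ℝ L ∧ AtLeast L ν ∧ ¬ HasMatrix L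

/-- Oppenheim's conjecture in dimension `n`. -/
def Oppenheim (n : ℕ) : Prop :=
  ∀ L : Fin n → Fin n → ℝ, LinearIndependent ℝ L → (∃ ν : ℝ, 0 < ν ∧ AtLeast L ν) → HasMatrix L

/-- On the integer points, the product of the `L i` is a real multiple of the product of the
`K i` composed with a rational matrix. -/
def Equivalent (L K : Fin n → Fin n → ℝ) : Prop :=
  ∃ (c : ℝ) (γ : Matrix (Fin n) (Fin n) ℚ), ∀ p : Fin n → ℤ,
    F L (fun j => (p j : ℝ)) = c * F K (fun j => ((γ.mulVec (fun k => (p k : ℚ)) j : ℚ) : ℝ))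

/-- The coefficients of the two systems differ by at most `δ`. -/
def Near (δ : ℝ) (L L₀ : Fin n → Fin n → ℝ) : Prop := ∀ i j, |L i j - L₀ i j| ≤ δ

/-- Let `n ≥ 3`. (1) If there is a counterexample in dimension `n`, then for every independent system `L₀` there is
`c > 0` such that for all `0 < δ ≤ 1` there is a counterexample `L'` (equivalent to the given one) within `δ` of `L₀`
whose product is at least `c δ ^ n` at the nonzero integer points; and within every distance of `L₀` there are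
continuum many pairwise inequivalent counterexamples. (2) So Oppenheim's conjecture in dimension `n` is equivalent
to its truth near one system `L₀`, and to the existence of a system `L₀` such that the infimum over `0 < δ ≤ 1` of
`δ ^ (-n)` times the supremum of the minima of the counterexamples within `δ` of `L₀` vanishes. -/
theorem result (n : ℕ) (hn : 3 ≤ n) :
    (∀ (L : Fin n → Fin n → ℝ) (ν : ℝ), 0 < ν → Counterexample L ν →
      ∀ L₀ : Fin n → Fin n → ℝ, LinearIndependent ℝ L₀ →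
      (∃ c : ℝ, 0 < c ∧ ∀ δ : ℝ, 0 < δ → δ ≤ 1 → ∃ L' : Fin n → Fin n → ℝ, Near δ L' L₀ ∧
        Counterexample L' (c * δ ^ n) ∧ Equivalent L' L) ∧
      ∀ δ : ℝ, 0 < δ → ∃ K : ℝ → Fin n → Fin n → ℝ, (∀ t, Near δ (K t) L₀ ∧
        ∃ c : ℝ, 0 < c ∧ Counterexample (K t) c) ∧ ∀ s t, s ≠ t → ¬ Equivalent (K s) (K t)) ∧
    List.TFAE [
      Oppenheim n,
      ∃ L₀ : Fin n → Fin n → ℝ, LinearIndependent ℝ L₀ ∧ ∃ δ : ℝ, 0 < δ ∧
        ∀ (L : Fin n → Fin n → ℝ) (ν : ℝ), Near δ L L₀ → 0 < ν → ¬ Counterexample L ν,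
      ∃ L₀ : Fin n → Fin n → ℝ, LinearIndependent ℝ L₀ ∧ ∀ ε : ℝ, 0 < ε → ∃ δ : ℝ, 0 < δ ∧ δ ≤ 1 ∧
        ∀ L : Fin n → Fin n → ℝ, Near δ L L₀ → ¬ Counterexample L (ε * δ ^ n)] := by
  have key : ∀ (L : Fin n → Fin n → ℝ) (ν : ℝ), 0 < ν → Counterexample L ν →
      ∀ L₀ : Fin n → Fin n → ℝ, LinearIndependent ℝ L₀ →
      (∃ c : ℝ, 0 < c ∧ ∀ δ : ℝ, 0 < δ → δ ≤ 1 → ∃ L' : Fin n → Fin n → ℝ, Near δ L' L₀ ∧
        Counterexample L' (c * δ ^ n) ∧ Equivalent L' L) :=
    fun L ν hν hL L₀ hL₀ => Helper86.Opp.near hn hν hL hL₀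
  refine ⟨fun L ν hν hL L₀ hL₀ => ⟨key L ν hν hL L₀ hL₀, ?_⟩, ?_⟩
  · intro δ hδ
    obtain ⟨K, hK, hne⟩ := Pool.Agent.Results.MP_77d073_nt.ContinuumMany.part_one hn hν hL
    have h1 : ∀ t, ∃ L' : Fin n → Fin n → ℝ, Near δ L' L₀ ∧
        (∃ c : ℝ, 0 < c ∧ Counterexample L' c) ∧ Equivalent L' (K t) := by
      intro t
      obtain ⟨c, hc, H⟩ := key (K t) ν hν (hK t).1 L₀ hL₀
      obtain ⟨L', h2, h3, h4⟩ := H (min δ 1) (by positivity) (min_le_right _ _)
      exact ⟨L', fun i j => (h2 i j).trans (min_le_left _ _), ⟨_, by positivity, h3⟩, h4⟩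
    choose K' h2 h3 h4 using h1
    refine ⟨K', fun t => ⟨h2 t, h3 t⟩, fun s t hst heq => hne s t hst ?_⟩
    obtain ⟨c, hc, hc'⟩ := h3 s
    obtain ⟨d, hd, hd'⟩ := h3 t
    have e1 : Y705.OP.QE (Matrix.of (K' s)) (Matrix.of (K s)) :=
      ContinuumMany.qe_of_equivalent hn hc hc'.2.1 (h4 s)
    have e2 : Y705.OP.QE (Matrix.of (K' t)) (Matrix.of (K t)) :=
      ContinuumMany.qe_of_equivalent hn hd hd'.2.1 (h4 t)
    have e3 : Y705.OP.QE (Matrix.of (K' s)) (Matrix.of (K' t)) :=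
      ContinuumMany.qe_of_equivalent hn hc hc'.2.1 heq
    exact ContinuumMany.equivalent_of_qe ((e1.symm.trans e3).trans e2)
  · have hstd : ∃ L₀ : Fin n → Fin n → ℝ, LinearIndependent ℝ L₀ :=
      ⟨fun i => Pi.single i 1, Pi.linearIndependent_single_one (Fin n) ℝ⟩
    tfae_have 1 → 2 := by
      intro hO
      obtain ⟨L₀, hL₀⟩ := hstd
      exact ⟨L₀, hL₀, 1, one_pos, fun L ν _ hν hL => hL.2.2 (hO L hL.1 ⟨ν, hν, hL.2.1⟩)⟩
    tfae_have 2 → 3 := by
      rintro ⟨L₀, hL₀, δ, hδ, H⟩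
      refine ⟨L₀, hL₀, fun ε hε => ⟨min δ 1, by positivity, min_le_right _ _, fun L hL => ?_⟩⟩
      exact H L _ (fun i j => (hL i j).trans (min_le_left _ _)) (by positivity)
    tfae_have 3 → 1 := by
      rintro ⟨L₀, hL₀, H⟩
      intro L hL hν
      obtain ⟨ν, hν, hLν⟩ := hν
      by_contra hcon
      obtain ⟨c, hc, H'⟩ := key L ν hν ⟨hL, hLν, hcon⟩ L₀ hL₀
      obtain ⟨δ, hδ, hδ1, H''⟩ := H c hc
      obtain ⟨L', h1, h2, -⟩ := H' δ hδ hδ1
      exact H'' L' h1 h2
    tfae_finish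

end Pool.Agent.Results.MP_77d073_nt.IsolationThreshold
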