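import Pool.Agent.Helper22.Opu.Thr
import Pool.Agent.Helper22.Opu.NormEx
import Pool.Agent.Helper22.Opu.E4
import Pool.Agent.Helper22.Opu.E5
import Pool.Agent.Helper22.Opu.E6

/-!
# Oppenheim's conclusion for the systems with small `|det L| / ν(L)`, `n = 4, 5, 6`

For linearly independent real linear forms `L₁, …, Lₙ` on `ℝⁿ`, with `L` the matrix of coefficients and
`ν(L)` the infimum of `|L₁(p) ⋯ Lₙ(p)|` over nonzero integer points `p` (the quantity of Q1), and with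

* `B₄ = 27.81`, `B₅ = 125.4`, `B₆ = 573.9`,

we prove for `n = 4, 5, 6`:

1. every system with `|det L| ≤ Bₙ ν(L)` satisfies the conclusion of Q1: there is an irreducible RS-matrix in
   `SL(n, ℤ)` whose invariant planes are the hyperplanes `Lᵢ = 0`;
2. the products of the systems with `|det L| ≤ Bₙ ν(L)`, divided by `|det L|`, fall into finitely many classes
   under integral changes of variables of determinant `±1`;
3. there are systems with `|det L| < Bₙ ν(L)`, and the largest value of `ν(L) / |det L|` over all systems is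
   attained, at one satisfying the conclusion of Q1.

(For 3 we use the norm forms of the totally real fields of discriminants 725, 14641, 300125.)

If Oppenheim's conjecture fails in dimension `n`, there is (by a theorem of the library) a counterexample with the
largest `ν(L) / |det L|` which remains one with the same `ν` when `L₁` is replaced by `L₁ + L₂`.
The values of both products at the integer points are functions of the orbit of the lattice point under the group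
of the diagonal matrices with equal entries in the first two places; a linear programming bound (Poisson
summation), averaged over this group, gives `|det L| > Bₙ ν(L)` for such pairs.
-/

set_option autoImplicit false

namespace Pool.Agent.Results.MP_77d073_nt.OppenheimAtTheTop

/-- `ν(L)`: the infimum of `|L₁(p) ⋯ Lₙ(p)|` over nonzero integer points `p`, where
`Lᵢ(p) = ∑ⱼ L i j * p j`. -/
noncomputable def nu {n : ℕ} (L : Matrix (Fin n) (Fin n) ℝ) : ℝ :=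
  ⨅ p : {p : Fin n → ℤ // p ≠ 0}, |∏ i, ∑ j, L i j * (p.1 j : ℝ)|

/-- The conclusion of Q1: there is an irreducible RS-matrix in `SL(n, ℤ)` whose invariant planes are the
hyperplanes `Lᵢ = 0`. -/
def HasMatrix {n : ℕ} (L : Matrix (Fin n) (Fin n) ℝ) : Prop :=
  ∃ A : Matrix (Fin n) (Fin n) ℤ,
    A.det = 1 ∧
    Irreducible (A.charpoly.map (Int.castRingHom ℚ)) ∧
    (∀ z : ℂ, Polynomial.aeval z A.charpoly = 0 → z.im = 0) ∧
    ∀ i : Fin n, ∀ x : Fin n → ℝ, ∑ j, L i j * x j = 0 →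
      ∑ j, L i j * ((A.map (Int.cast : ℤ → ℝ)).mulVec x) j = 0

/-- The constants `B₄, B₅, B₆` (the other values are not used). -/
noncomputable def B : ℕ → ℝ
  | 4 => 27.81
  | 5 => 125.4
  | 6 => 573.9
  | _ => 0

theorem nu_le {n : ℕ} (L : Matrix (Fin n) (Fin n) ℝ) (p : Fin n → ℤ) (hp : p ≠ 0) :
    nu L ≤ |∏ i, ∑ j, L i j * (p j : ℝ)| := by
  unfold nu
  exact ciInf_le (f := fun p : {p : Fin n → ℤ // p ≠ 0} => |∏ i, ∑ j, L i j * (p.1 j : ℝ)|)
    ⟨0, by rintro _ ⟨q, rfl⟩; exact abs_nonneg _⟩ ⟨p, hp⟩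

theorem le_nu {n : ℕ} (hn : 0 < n) (L : Matrix (Fin n) (Fin n) ℝ) {c : ℝ}
    (h : ∀ p : Fin n → ℤ, p ≠ 0 → c ≤ |∏ i, ∑ j, L i j * (p j : ℝ)|) : c ≤ nu L := by
  unfold nu
  have : Nonempty {p : Fin n → ℤ // p ≠ 0} :=
    ⟨⟨fun _ => 1, fun h => by have := congrFun h ⟨0, hn⟩; simp at this⟩⟩
  exact le_ciInf fun p => h p.1 p.2

open Pool.Agent.Helper22.Opu in
theorem pb4 : PairBound 2 (B 4) := by
  intro L hL ν hν h1 h2
  have h := E4.bound L hL hν h1 h2
  have e1 : (E4.d.mn : ℝ) = 235 := by norm_num [E4.d]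
  have e2 : (E4.d.md : ℝ) = 10000 := by norm_num [E4.d]
  have hB : B 4 = 27.81 := rfl
  rw [e1, e2] at h
  rw [hB]
  push_cast at h
  norm_num at h ⊢
  linarith

open Pool.Agent.Helper22.Opu in
theorem pb5 : PairBound 3 (B 5) := by
  intro L hL ν hν h1 h2
  have h := E5.bound L hL hν h1 h2
  have e1 : (E5.d.mn : ℝ) = 1004 := by norm_num [E5.d]
  have e2 : (E5.d.md : ℝ) = 100000 := by norm_num [E5.d]
  have hB : B 5 = 125.4 := rfl
  rw [e1, e2] at h
  rw [hB]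
  push_cast at h
  norm_num at h ⊢
  linarith

open Pool.Agent.Helper22.Opu in
theorem pb6 : PairBound 4 (B 6) := by
  intro L hL ν hν h1 h2
  have h := E6.bound L hL hν h1 h2
  have e1 : (E6.d.mn : ℝ) = 405 := by norm_num [E6.d]
  have e2 : (E6.d.md : ℝ) = 100000 := by norm_num [E6.d]
  have hB : B 6 = 573.9 := rfl
  rw [e1, e2] at h
  rw [hB]
  push_cast at h
  norm_num at h ⊢
  linarith

/-- the first two parts in dimension `k + 2` from the bound for pairs -/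
theorem parts {k : ℕ} (hk : 1 ≤ k) (hB : 0 < B (k + 2)) (hp : Pool.Agent.Helper22.Opu.PairBound k (B (k + 2))) :
    (∀ L : Matrix (Fin (k + 2)) (Fin (k + 2)) ℝ, L.det ≠ 0 → |L.det| ≤ B (k + 2) * nu L → HasMatrix L) ∧
    (∃ S : Finset (Matrix (Fin (k + 2)) (Fin (k + 2)) ℝ), ∀ L : Matrix (Fin (k + 2)) (Fin (k + 2)) ℝ,
      L.det ≠ 0 → |L.det| ≤ B (k + 2) * nu L →
      ∃ L₀ ∈ S, ∃ γ : Matrix (Fin (k + 2)) (Fin (k + 2)) ℤ, |γ.det| = 1 ∧ ∀ p : Fin (k + 2) → ℤ,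
        ∏ i, ∑ j, L i j * (p j : ℝ) = |L.det| * ∏ i, ∑ j, L₀ i j * ((γ.mulVec p j : ℤ) : ℝ)) := by
  obtain ⟨S, hS⟩ := Pool.Agent.Helper22.Opu.main hk hB hp
  refine ⟨fun L hL hν => ?_, S, fun L hL hν => ?_⟩
  · exact (hS L hL (nu L) hν (fun p hp => nu_le L p hp)).1
  · exact (hS L hL (nu L) hν (fun p hp => nu_le L p hp)).2

/-- `ν` under an integral change of variables of determinant `±1` -/
theorem nu_eq {n : ℕ} (hn : 0 < n) {L L₀ : Matrix (Fin n) (Fin n) ℝ} {c : ℝ} (hc : 0 < c)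
    {γ : Matrix (Fin n) (Fin n) ℤ} (hγ : |γ.det| = 1)
    (h : ∀ p : Fin n → ℤ,
      ∏ i, ∑ j, L i j * (p j : ℝ) = c * ∏ i, ∑ j, L₀ i j * ((γ.mulVec p j : ℤ) : ℝ)) :
    nu L = c * nu L₀ := by
  have hu : IsUnit γ.det := Int.isUnit_iff_abs_eq.mpr hγ
  apply le_antisymm
  · have h2 : nu L / c ≤ nu L₀ := by
      refine le_nu hn L₀ fun q hq => ?_
      have e : γ.mulVec (γ⁻¹.mulVec q) = q := by
        rw [Matrix.mulVec_mulVec, Matrix.mul_nonsing_inv γ hu, Matrix.one_mulVec]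
      have h3 := nu_le L (γ⁻¹.mulVec q) (fun h0 => hq (by rw [← e, h0, Matrix.mulVec_zero]))
      rw [h (γ⁻¹.mulVec q), e, abs_mul, abs_of_pos hc] at h3
      rw [div_le_iff₀ hc]
      linarith
    rw [div_le_iff₀ hc] at h2
    linarith
  · refine le_nu hn L fun p hp => ?_
    have h3 : γ.mulVec p ≠ 0 := by
      intro h0
      apply hp
      have e : γ⁻¹.mulVec (γ.mulVec p) = p := by
        rw [Matrix.mulVec_mulVec, Matrix.nonsing_inv_mul γ hu, Matrix.one_mulVec]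
      rw [← e, h0, Matrix.mulVec_zero]
    rw [h p, abs_mul, abs_of_pos hc]
    exact mul_le_mul_of_nonneg_left (nu_le L₀ _ h3) hc.le

/-- the largest value of `ν(L) / |det L|` is attained -/
theorem top {n : ℕ} (hn : 0 < n) {b : ℝ} (hb : 0 < b)
    (h1 : ∀ L : Matrix (Fin n) (Fin n) ℝ, L.det ≠ 0 → |L.det| ≤ b * nu L → HasMatrix L)
    {S : Finset (Matrix (Fin n) (Fin n) ℝ)}
    (h2 : ∀ L : Matrix (Fin n) (Fin n) ℝ, L.det ≠ 0 → |L.det| ≤ b * nu L →
      ∃ L₀ ∈ S, ∃ γ : Matrix (Fin n) (Fin n) ℤ, |γ.det| = 1 ∧ ∀ p : Fin n → ℤ,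
        ∏ i, ∑ j, L i j * (p j : ℝ) = |L.det| * ∏ i, ∑ j, L₀ i j * ((γ.mulVec p j : ℤ) : ℝ))
    (h3 : ∃ L : Matrix (Fin n) (Fin n) ℝ, L.det ≠ 0 ∧ |L.det| < b * nu L) :
    ∃ L : Matrix (Fin n) (Fin n) ℝ, L.det ≠ 0 ∧ |L.det| < b * nu L ∧ HasMatrix L ∧
      ∀ M : Matrix (Fin n) (Fin n) ℝ, M.det ≠ 0 → nu M / |M.det| ≤ nu L / |L.det| := by
  classical
  set T : Set ℝ := {x | ∃ L : Matrix (Fin n) (Fin n) ℝ, L.det ≠ 0 ∧ |L.det| ≤ b * nu L ∧
    x = nu L / |L.det|} with hT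
  have hfin : T.Finite := by
    refine (S.image nu).finite_toSet.subset ?_
    rintro x ⟨L, l1, l2, rfl⟩
    obtain ⟨L₀, hL₀, γ, hγ, h⟩ := h2 L l1 l2
    have e := nu_eq hn (abs_pos.mpr l1) hγ h
    rw [Finset.mem_coe, Finset.mem_image]
    refine ⟨L₀, hL₀, ?_⟩
    rw [e]
    field_simp [abs_ne_zero.mpr l1]
  obtain ⟨L₁, k1, k2⟩ := h3
  obtain ⟨x, ⟨L, l1, l2, rfl⟩, hx⟩ := hfin.exists_maximalFor id T ⟨_, L₁, k1, k2.le, rfl⟩
  have hmax : ∀ M : Matrix (Fin n) (Fin n) ℝ, M.det ≠ 0 → |M.det| ≤ b * nu M →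
      nu M / |M.det| ≤ nu L / |L.det| := by
    intro M m1 m2
    rcases le_total (nu M / |M.det|) (nu L / |L.det|) with h | h
    · exact h
    · exact hx ⟨M, m1, m2, rfl⟩ h
  have hL : 1 / b < nu L / |L.det| := by
    refine lt_of_lt_of_le ?_ (hmax L₁ k1 k2.le)
    rw [div_lt_div_iff₀ hb (abs_pos.mpr k1)]
    linarith
  refine ⟨L, l1, ?_, h1 L l1 l2, fun M m1 => ?_⟩
  · rw [div_lt_div_iff₀ hb (abs_pos.mpr l1)] at hL
    linarith
  · rcases le_or_gt |M.det| (b * nu M) with h | h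
    · exact hmax M m1 h
    · refine le_trans ?_ hL.le
      rw [div_le_div_iff₀ (abs_pos.mpr m1) hb]
      linarith

/-- Oppenheim's conclusion holds for the systems with `|det L| ≤ Bₙ ν(L)`, `n = 4, 5, 6`. -/
theorem result (n : ℕ) (h4 : 4 ≤ n) (h6 : n ≤ 6) :
    (∀ L : Matrix (Fin n) (Fin n) ℝ, L.det ≠ 0 → |L.det| ≤ B n * nu L → HasMatrix L) ∧
    (∃ S : Finset (Matrix (Fin n) (Fin n) ℝ), ∀ L : Matrix (Fin n) (Fin n) ℝ,
      L.det ≠ 0 → |L.det| ≤ B n * nu L →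
      ∃ L₀ ∈ S, ∃ γ : Matrix (Fin n) (Fin n) ℤ, |γ.det| = 1 ∧ ∀ p : Fin n → ℤ,
        ∏ i, ∑ j, L i j * (p j : ℝ) = |L.det| * ∏ i, ∑ j, L₀ i j * ((γ.mulVec p j : ℤ) : ℝ)) ∧
    (∃ L : Matrix (Fin n) (Fin n) ℝ, L.det ≠ 0 ∧ |L.det| < B n * nu L ∧ HasMatrix L ∧
      ∀ M : Matrix (Fin n) (Fin n) ℝ, M.det ≠ 0 → nu M / |M.det| ≤ nu L / |L.det|) := by
  interval_cases n
  · have hB : B 4 = 27.81 := rfl
    have hb : 0 < B 4 := by rw [hB]; norm_num
    obtain ⟨p1, S, p2⟩ := parts (k := 2) (by norm_num) hb pb4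
    obtain ⟨L, l1, l2, l3⟩ := Pool.Agent.Helper22.Opu.Norm.ex4
    refine ⟨p1, ⟨S, p2⟩, top (by norm_num) hb p1 p2 ⟨L, l1, ?_⟩⟩
    have := le_nu (by norm_num) L l3
    rw [hB]
    push_cast at l2
    norm_num at l2 ⊢
    linarith
  · have hB : B 5 = 125.4 := rfl
    have hb : 0 < B 5 := by rw [hB]; norm_num
    obtain ⟨p1, S, p2⟩ := parts (k := 3) (by norm_num) hb pb5
    obtain ⟨L, l1, l2, l3⟩ := Pool.Agent.Helper22.Opu.Norm.ex5
    refine ⟨p1, ⟨S, p2⟩, top (by norm_num) hb p1 p2 ⟨L, l1, ?_⟩⟩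
    have := le_nu (by norm_num) L l3
    rw [hB]
    push_cast at l2
    norm_num at l2 ⊢
    linarith
  · have hB : B 6 = 573.9 := rfl
    have hb : 0 < B 6 := by rw [hB]; norm_num
    obtain ⟨p1, S, p2⟩ := parts (k := 4) (by norm_num) hb pb6
    obtain ⟨L, l1, l2, l3⟩ := Pool.Agent.Helper22.Opu.Norm.ex6
    refine ⟨p1, ⟨S, p2⟩, top (by norm_num) hb p1 p2 ⟨L, l1, ?_⟩⟩
    have := le_nu (by norm_num) L l3
    rw [hB]
    push_cast at l2
    norm_num at l2 ⊢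
    linarith

end Pool.Agent.Results.MP_77d073_nt.OppenheimAtTheTop
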