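import Pool.Agent.Helper22.Opp.D4
import Pool.Agent.Helper22.Opp.D5
import Pool.Agent.Helper22.Opp.D6
import Pool.Agent.Helper22.Opp.D7
import Pool.Agent.Helper22.Opp.D8

/-!
# The infimum of a product of `n` real linear forms, `n = 4, 5, 6, 7, 8`

For linearly independent real linear forms `L₁, …, Lₙ` on `ℝⁿ`, with `L` the matrix of coefficients and
`ν(L)` the infimum of `|L₁(p) ⋯ Lₙ(p)|` over nonzero integer points `p` (the quantity of Q1), we prove
`ν(L) ≤ |det L| / Bₙ` with

* `B₄ = 26.45`, `B₅ = 112.79`, `B₆ = 517.4`, `B₇ = 2490`, `B₈ = 12386`.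

So for these `n` the hypothesis of Q1 can only hold with `|det L| ≥ Bₙ ν(L)`.
The proof is a linear programming bound (Poisson summation on `ℤⁿ`) in which the test function is averaged over
the diagonal subgroup of `GLₙ(ℝ)`, so that only the value of the product at a lattice point matters.
-/

set_option autoImplicit false

namespace Pool.Agent.Results.MP_77d073_nt.ProductFormsSmallDim

/-- `ν(L)`: the infimum of `|L₁(p) ⋯ Lₙ(p)|` over nonzero integer points `p`, where
`Lᵢ(p) = ∑ⱼ L i j * p j`. -/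
noncomputable def nu {n : ℕ} (L : Matrix (Fin n) (Fin n) ℝ) : ℝ :=
  ⨅ p : {p : Fin n → ℤ // p ≠ 0}, |∏ i, ∑ j, L i j * (p.1 j : ℝ)|

/-- The constants `B₄, …, B₈` (the other values are not used). -/
noncomputable def B : ℕ → ℝ
  | 4 => 26.45
  | 5 => 112.79
  | 6 => 517.4
  | 7 => 2490
  | 8 => 12386
  | _ => 0

theorem nu_le {n : ℕ} (L : Matrix (Fin n) (Fin n) ℝ) (p : Fin n → ℤ) (hp : p ≠ 0) :
    nu L ≤ |∏ i, ∑ j, L i j * (p j : ℝ)| := by
  unfold nu
  exact ciInf_le (f := fun p : {p : Fin n → ℤ // p ≠ 0} => |∏ i, ∑ j, L i j * (p.1 j : ℝ)|)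
    ⟨0, by rintro _ ⟨q, rfl⟩; exact abs_nonneg _⟩ ⟨p, hp⟩

/-- Upper bounds for the infimum of the product of `n` linearly independent real linear forms,
`4 ≤ n ≤ 8`. -/
theorem result (n : ℕ) (h4 : 4 ≤ n) (h8 : n ≤ 8) (L : Matrix (Fin n) (Fin n) ℝ)
    (hL : L.det ≠ 0) : nu L ≤ |L.det| / B n := by
  interval_cases n
  · have h := Pool.Agent.Helper22.Opp.D4.bound L hL (nu L) (fun p hp => nu_le L p hp)
    have hB : B 4 = 26.45 := rfl
    rw [hB, le_div_iff₀ (by norm_num)]
    norm_num at h ⊢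
    linarith
  · have h := Pool.Agent.Helper22.Opp.D5.bound L hL (nu L) (fun p hp => nu_le L p hp)
    have hB : B 5 = 112.79 := rfl
    rw [hB, le_div_iff₀ (by norm_num)]
    norm_num at h ⊢
    linarith
  · have h := Pool.Agent.Helper22.Opp.D6.bound L hL (nu L) (fun p hp => nu_le L p hp)
    have hB : B 6 = 517.4 := rfl
    rw [hB, le_div_iff₀ (by norm_num)]
    norm_num at h ⊢
    linarith
  · have h := Pool.Agent.Helper22.Opp.D7.bound L hL (nu L) (fun p hp => nu_le L p hp)
    have hB : B 7 = 2490 := rfl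
    rw [hB, le_div_iff₀ (by norm_num)]
    norm_num at h ⊢
    linarith
  · have h := Pool.Agent.Helper22.Opp.D8.bound L hL (nu L) (fun p hp => nu_le L p hp)
    have hB : B 8 = 12386 := rfl
    rw [hB, le_div_iff₀ (by norm_num)]
    norm_num at h ⊢
    linarith

end Pool.Agent.Results.MP_77d073_nt.ProductFormsSmallDim
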